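import Pool.Agent.Helper94.LD6.TTA

/-!
# Project LD6, block TTB1: the times
-/

set_option autoImplicit false

namespace Pool.Agent.Helper68.LD6

open Set MeasureTheory Filter Topology
open Pool.Agent.Helper41.LD6
open Pool.Agent.Helper94.LD6 (Vf_pos Vf_nonneg Vf_mono Vf_step Vf_step_le)

variable {F : Pm} {K : ℕ} {Θ a₀ ℓst a ℓ ℓ' x : ℝ} {j n Λ : ℕ}

theorem Tt_spec (hF : F.Ok) (h1 : F.x₁ ≤ a) (hℓ : 0 < ℓ) (Θ : ℝ) : Θ ≤ Vf F.A₀ (Tt F.A₀ Θ a ℓ) a * ℓ := by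
  have hne : {n : ℕ | Θ ≤ Vf F.A₀ n a * ℓ}.Nonempty := by
    have ha : 1 ≤ a := hF.h1.le.trans h1
    obtain ⟨n, hn⟩ := exists_nat_ge (Θ / (F.A₀ * ℓ))
    refine ⟨n, ?_⟩
    have h2 : 0 < F.A₀ * ℓ := mul_pos hF.hA hℓ
    rw [div_le_iff₀ h2] at hn
    show Θ ≤ F.A₀ * n * a ^ (n - 1) * ℓ
    have h3 : (1:ℝ) ≤ a ^ (n - 1) := one_le_pow₀ ha
    have h4 : 0 ≤ (n : ℝ) * (F.A₀ * ℓ) := mul_nonneg (Nat.cast_nonneg n) h2.le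
    calc Θ ≤ n * (F.A₀ * ℓ) := hn
      _ ≤ n * (F.A₀ * ℓ) * a ^ (n - 1) := le_mul_of_one_le_right h4 h3
      _ = F.A₀ * n * a ^ (n - 1) * ℓ := by ring
  exact Nat.sInf_mem hne

theorem lt_Tt (hj : j < Tt F.A₀ Θ a ℓ) : Vf F.A₀ j a * ℓ < Θ := by
  have h := Nat.notMem_of_lt_sInf hj
  rw [Set.mem_ofPred_eq] at h
  exact not_le.1 h

theorem Tt_le (hj : Θ ≤ Vf F.A₀ j a * ℓ) : Tt F.A₀ Θ a ℓ ≤ j := Nat.sInf_le hj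

theorem Vf_le68 (hF : F.Ok) (h1 : F.x₁ ≤ a) {i j : ℕ} (hij : i ≤ j) : Vf F.A₀ i a ≤ Vf F.A₀ j a := by
  have ha : 1 ≤ a := hF.h1.le.trans h1
  have h2 := Vf_step (A₀ := F.A₀) (x := a) hF.hA (by linarith) hij
  have h3 : 0 ≤ Vf F.A₀ i a := Vf_nonneg hF.hA (by linarith)
  exact (le_mul_of_one_le_right h3 (one_le_pow₀ ha)).trans h2

theorem Tt_ge (hF : F.Ok) (h1 : F.x₁ ≤ a) (hℓ : 0 < ℓ) (hj : Tt F.A₀ Θ a ℓ ≤ j) : Θ ≤ Vf F.A₀ j a * ℓ :=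
  (Tt_spec hF h1 hℓ Θ).trans (mul_le_mul_of_nonneg_right (Vf_le68 hF h1 hj) hℓ.le)

theorem Tt_mono (hF : F.Ok) (h1 : F.x₁ ≤ a) (hℓ' : 0 < ℓ') (hle : ℓ' ≤ ℓ) (hΘ : 0 ≤ Θ) : Tt F.A₀ Θ a ℓ ≤ Tt F.A₀ Θ a ℓ' := by
  have _ := hΘ
  have ha : 1 ≤ a := hF.h1.le.trans h1
  refine Tt_le ((Tt_spec hF h1 hℓ' Θ).trans ?_)
  exact mul_le_mul_of_nonneg_left hle (Vf_nonneg hF.hA (by linarith))

theorem Tt_block_le (hF : F.Ok) (h1 : F.x₁ ≤ a) (hℓ : 0 < ℓ) (hΘ : 0 ≤ Θ) (Λ : ℕ) : Tt F.A₀ Θ a (ℓ / 2 ^ Λ) ≤ Tt F.A₀ Θ a ℓ + F.X * Λ := by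
  have _ := hΘ
  have hx1 : 1 < F.x₁ := hF.h1
  have ha : 1 ≤ a := hx1.le.trans h1
  refine Tt_le ?_
  have h2 := Vf_step (A₀ := F.A₀) (x := a) hF.hA (by linarith) (Nat.le_add_right (Tt F.A₀ Θ a ℓ) (F.X * Λ))
  rw [Nat.add_sub_cancel_left] at h2
  have h3 : (2:ℝ) ^ Λ ≤ a ^ (F.X * Λ) := by
    rw [pow_mul]
    refine pow_le_pow_left₀ (by norm_num) (hF.hx1.trans ?_) Λ
    exact pow_le_pow_left₀ (by linarith) h1 F.X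
  have h4 : 0 ≤ Vf F.A₀ (Tt F.A₀ Θ a ℓ) a := Vf_nonneg hF.hA (by linarith)
  have h5 : (0:ℝ) < 2 ^ Λ := by positivity
  rw [mul_div_assoc', le_div_iff₀ h5]
  have h6 := Tt_spec hF h1 hℓ Θ
  calc Θ * 2 ^ Λ ≤ (Vf F.A₀ (Tt F.A₀ Θ a ℓ) a * ℓ) * 2 ^ Λ := mul_le_mul_of_nonneg_right h6 h5.le
    _ = (Vf F.A₀ (Tt F.A₀ Θ a ℓ) a * 2 ^ Λ) * ℓ := by ring
    _ ≤ (Vf F.A₀ (Tt F.A₀ Θ a ℓ) a * a ^ (F.X * Λ)) * ℓ :=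
        mul_le_mul_of_nonneg_right (mul_le_mul_of_nonneg_left h3 h4) hℓ.le
    _ ≤ Vf F.A₀ (Tt F.A₀ Θ a ℓ + F.X * Λ) a * ℓ := mul_le_mul_of_nonneg_right h2 hℓ.le

theorem Tt_two (hF : F.Ok) (hℓ : 0 < ℓ) (hℓ1 : ℓ ≤ 1) (hΘ : (2 : ℝ) ^ (F.X + 1) ≤ Θ) (h1 : F.x₁ ≤ a) : 2 ≤ Tt F.A₀ Θ a ℓ := by
  by_contra hcon
  have h2 := Tt_spec hF h1 hℓ Θ
  have hp : (0:ℝ) < 2 ^ F.X := by positivity
  have h3 : (2:ℝ) ^ (F.X + 1) = 2 * 2 ^ F.X := by ring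
  have h4 := hF.hA1
  have h5 := hF.hA
  have h6 : F.A₀ * ℓ ≤ F.A₀ := mul_le_of_le_one_right h5.le hℓ1
  rcases Nat.lt_or_ge (Tt F.A₀ Θ a ℓ) 1 with h | h
  · have h0 : Tt F.A₀ Θ a ℓ = 0 := by omega
    rw [h0] at h2
    unfold Vf at h2
    simp at h2
    linarith
  · have h0 : Tt F.A₀ Θ a ℓ = 1 := by omega
    rw [h0] at h2
    unfold Vf at h2
    simp at h2
    linarith

/-- here `V 1 ℓ = A₀ ℓ < Θ` -/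
theorem Tt_block_ge (hF : F.Ok) (h1 : F.x₁ ≤ a) (h2 : a ≤ F.x₂) (hℓ : 0 < ℓ) (hℓ1 : ℓ ≤ 1) (hΘ : (2 : ℝ) ^ (F.X + 1) ≤ Θ) (hn : (F.X + 1) * n ≤ Λ) :
    Tt F.A₀ Θ a ℓ + n ≤ Tt F.A₀ Θ a (ℓ / 2 ^ Λ) := by
  by_contra hcon
  push Not at hcon
  have ha : 1 ≤ a := hF.h1.le.trans h1
  have hT := Tt_two hF hℓ hℓ1 hΘ h1
  have h5 : (0:ℝ) < 2 ^ Λ := by positivity
  have h3 := Tt_spec hF h1 (div_pos hℓ h5) Θ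
  have h4 : Vf F.A₀ (Tt F.A₀ Θ a (ℓ / 2 ^ Λ)) a ≤ Vf F.A₀ ((Tt F.A₀ Θ a ℓ - 1) + n) a := Vf_le68 hF h1 (by omega)
  have h6 := Vf_step_le (A₀ := F.A₀) (n := Tt F.A₀ Θ a ℓ - 1) (x := a) hF.hA (by omega) ha n
  have h7 : Vf F.A₀ (Tt F.A₀ Θ a ℓ - 1) a * ℓ < Θ := lt_Tt (by omega)
  have h8 : 0 ≤ Vf F.A₀ (Tt F.A₀ Θ a ℓ - 1) a := Vf_nonneg hF.hA (by linarith)
  have h9 : (2 * a) ^ n ≤ 2 ^ Λ := by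
    have h10 : 2 * a ≤ 2 ^ (F.X + 1) := by
      have := h2.trans hF.hx2
      calc 2 * a ≤ 2 * 2 ^ F.X := by linarith
        _ = 2 ^ (F.X + 1) := by ring
    calc (2 * a) ^ n ≤ (2 ^ (F.X + 1)) ^ n := pow_le_pow_left₀ (by linarith) h10 n
      _ = 2 ^ ((F.X + 1) * n) := by rw [← pow_mul]
      _ ≤ 2 ^ Λ := pow_le_pow_right₀ (by norm_num) hn
  have h10 : Vf F.A₀ (Tt F.A₀ Θ a (ℓ / 2 ^ Λ)) a ≤ 2 ^ Λ * Vf F.A₀ (Tt F.A₀ Θ a ℓ - 1) a :=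
    h4.trans (h6.trans (mul_le_mul_of_nonneg_right h9 h8))
  have h11 : Θ ≤ Vf F.A₀ (Tt F.A₀ Θ a ℓ - 1) a * ℓ := by
    refine h3.trans ?_
    rw [mul_div_assoc', div_le_iff₀ h5]
    calc Vf F.A₀ (Tt F.A₀ Θ a (ℓ / 2 ^ Λ)) a * ℓ ≤ (2 ^ Λ * Vf F.A₀ (Tt F.A₀ Θ a ℓ - 1) a) * ℓ :=
          mul_le_mul_of_nonneg_right h10 hℓ.le
      _ = Vf F.A₀ (Tt F.A₀ Θ a ℓ - 1) a * ℓ * 2 ^ Λ := by ring
  linarith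

theorem Th_ge (hK : F.Big K) : (2 : ℝ) ^ (F.X + 1) ≤ F.Th K := by
  unfold Pm.Th
  refine pow_le_pow_right₀ (by norm_num) ?_
  have h1 : F.Z ^ 4 ≤ K := hK
  have h2 : F.X + 1 ≤ F.Z := by
    unfold Pm.Z
    have : F.X + 1 ≤ 1000 * (F.X + 1) := by omega
    exact this.trans (Nat.le_mul_of_pos_right _ (by omega))
  have h3 : F.Z ≤ F.Z ^ 4 := Nat.le_self_pow (by norm_num) _
  have h4 : K ≤ F.E K := by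
    unfold Pm.E
    exact Nat.le_mul_of_pos_left _ (by omega)
  have h5 : F.E K ≤ F.C₁ * F.E K := by
    refine Nat.le_mul_of_pos_left _ ?_
    unfold Pm.C₁
    omega
  omega

theorem T_start (F : Pm) (K : ℕ) (a₀ ℓst : ℝ) : F.T K a₀ ℓst ℓst = 0 := Nat.sub_self _

end Pool.Agent.Helper68.LD6
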