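import Pool.Agent.Helper41.LD6.Defs
import Pool.Agent.Helper68.LD4.A2
import Pool.Agent.Helper23.LD3.MV

/-!
# Project LD6, block E2: second moments of the increments
-/

set_option autoImplicit false

namespace Pool.Agent.Helper68.LD6

open Set MeasureTheory Filter Topology
open Pool.Agent.Helper33.LD (ii_of_bdd)
open Pool.Agent.Helper41.LD (av var)
open Pool.Agent.Helper68.LD (av_children sum_av_sub_sq_le child_mem av_sq_le)
open Pool.Agent.Helper41.LD4 (A M W Pot NB NBg)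
open Pool.Agent.Helper68.LD4 (dA dT inc_eq)
open Pool.Agent.Helper41.LD6

variable {G : ℕ → ℝ → ℝ} {w η : ℝ} {H n : ℕ} {a ℓ : ℝ}

theorem A_zero68 (hw : Wq G w η H n a ℓ) {j : ℕ} (hj : H ≤ j) (a' ℓ' : ℝ) : A G j a' ℓ' = 0 := by
  unfold A av
  have h : ∫ x in a'..(a' + ℓ'), G j x = 0 := by
    rw [intervalIntegral.integral_congr (g := fun _ => (0 : ℝ)) fun x _ => hw.zero j hj x]
    simp
  rw [h, zero_div]

theorem M_eq68 (hw : Wq G w η H n a ℓ) (a' ℓ' : ℝ) : M G a' ℓ' = ∑ j ∈ Finset.range H, A G j a' ℓ' := by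
  unfold M
  refine tsum_eq_sum fun j hj => A_zero68 hw ?_ a' ℓ'
  rw [Finset.mem_range] at hj
  omega

theorem A_le68 (hw : Wq G w η H n a ℓ) {j : ℕ} (hj : n ≤ j) : |A G j a ℓ| ≤ w * η := by
  unfold A av
  rw [abs_div, abs_of_pos hw.pos, div_le_iff₀ hw.pos]
  exact hw.tail j hj

theorem Hη68 (hw : Wq G w η H n a ℓ) : (H : ℝ) * η ≤ 1 := by
  have h1 := hw.ηH
  have h2 : (0:ℝ) ≤ H := Nat.cast_nonneg H
  have h3 := hw.η0
  nlinarith [mul_nonneg h3 h2, mul_nonneg h3 (mul_nonneg h2 h2)]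

theorem tail_sum68 (hw : Wq G w η H n a ℓ) (S : Finset ℕ) (hS : ∀ j ∈ S, n ≤ j) : |∑ j ∈ S, A G j a ℓ| ≤ w := by
  have h1 : ∑ j ∈ S, A G j a ℓ = ∑ j ∈ S.filter (fun j => j < H), A G j a ℓ := by
    rw [Finset.sum_filter]
    refine Finset.sum_congr rfl fun j _ => ?_
    split_ifs with h
    · rfl
    · exact A_zero68 hw (not_lt.1 h) a ℓ
  rw [h1]
  refine (Finset.abs_sum_le_sum_abs _ _).trans ?_
  refine (Finset.sum_le_sum fun j hj => A_le68 hw (hS j (Finset.mem_filter.1 hj).1)).trans ?_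
  rw [Finset.sum_const, nsmul_eq_mul]
  have h2 : ((S.filter (fun j => j < H)).card : ℝ) ≤ H := by
    have h3 : S.filter (fun j => j < H) ⊆ Finset.range H := fun j hj =>
      Finset.mem_range.2 (Finset.mem_filter.1 hj).2
    have h4 := Finset.card_le_card h3
    rw [Finset.card_range] at h4
    exact_mod_cast h4
  have h3 := Hη68 hw
  calc ((S.filter (fun j => j < H)).card : ℝ) * (w * η) ≤ H * (w * η) :=
        mul_le_mul_of_nonneg_right h2 (mul_nonneg hw.w0 hw.η0)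
    _ = w * (H * η) := by ring
    _ ≤ w * 1 := mul_le_mul_of_nonneg_left h3 hw.w0
    _ = w := mul_one w

theorem M_tail68 (hw : Wq G w η H n a ℓ) {m' : ℕ} (hm : n ≤ m') : |M G a ℓ - ∑ j ∈ Finset.range m', A G j a ℓ| ≤ w := by
  rw [M_eq68 hw]
  rcases le_total m' H with h | h
  · rw [← Finset.sum_range_add_sum_Ico _ h, add_sub_cancel_left]
    exact tail_sum68 hw _ fun j hj => hm.trans (Finset.mem_Ico.1 hj).1
  · have h1 : ∑ j ∈ Finset.range m', A G j a ℓ = ∑ j ∈ Finset.range H, A G j a ℓ := by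
      rw [← Finset.sum_range_add_sum_Ico _ h, Finset.sum_eq_zero (s := Finset.Ico H m')
        (fun j hj => A_zero68 hw (Finset.mem_Ico.1 hj).1 a ℓ), add_zero]
    rw [h1, sub_self, abs_zero]
    exact hw.w0

theorem mid_sq68 (hw : Wq G w η H n a ℓ) {L B : ℕ} (hB : 1 ≤ B) :
    ∑ b ∈ Finset.range B, (∑ j ∈ Finset.Ico n (n + L), A G j (a + b * (ℓ / B)) (ℓ / B)) ^ 2 ≤ B * (2 * L * w) := by
  have hℓ := hw.pos
  have hB0 : (0:ℝ) < B := by exact_mod_cast hB
  set Ψ : ℝ → ℝ := fun x => ∑ j ∈ Finset.Ico n (n + L), G j x with hΨ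
  have hii : ∀ j : ℕ, ∀ p q : ℝ, IntervalIntegrable (fun x => G j x) volume p q := fun j p q =>
    ii_of_bdd (hw.meas j) (hw.bdd j) p q
  have hprod : ∀ j₁ j₂ : ℕ, ∀ p q : ℝ, IntervalIntegrable (fun x => G j₁ x * G j₂ x) volume p q := by
    intro j₁ j₂ p q
    refine ii_of_bdd ((hw.meas j₁).mul (hw.meas j₂)) (fun t => ?_) p q
    show |G j₁ t * G j₂ t| ≤ 1
    rw [abs_mul]
    exact mul_le_one₀ (hw.bdd j₁ t) (abs_nonneg _) (hw.bdd j₂ t)
  have hΨi : ∀ p q, IntervalIntegrable Ψ volume p q := by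
    intro p q
    rw [hΨ]
    have := IntervalIntegrable.sum (μ := volume) (a := p) (b := q) (Finset.Ico n (n + L))
      (f := fun j x => G j x) (fun j _ => hii j p q)
    simpa [Finset.sum_fn] using this
  have hsq : ∀ x, Ψ x ^ 2 = ∑ j₁ ∈ Finset.Ico n (n + L), ∑ j₂ ∈ Finset.Ico n (n + L), G j₁ x * G j₂ x := by
    intro x
    rw [hΨ, pow_two, Finset.sum_mul_sum]
  have hΨ2 : ∀ p q, IntervalIntegrable (fun x => Ψ x ^ 2) volume p q := by
    intro p q
    simp only [hsq]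
    have := IntervalIntegrable.sum (μ := volume) (a := p) (b := q) (Finset.Ico n (n + L))
      (f := fun j₁ x => ∑ j₂ ∈ Finset.Ico n (n + L), G j₁ x * G j₂ x)
      (fun j₁ _ => by
        have := IntervalIntegrable.sum (μ := volume) (a := p) (b := q) (Finset.Ico n (n + L))
          (f := fun j₂ x => G j₁ x * G j₂ x) (fun j₂ _ => hprod j₁ j₂ p q)
        simpa [Finset.sum_fn] using this)
    simpa [Finset.sum_fn] using this
  have h1 : ∀ b ∈ Finset.range B, (∑ j ∈ Finset.Ico n (n + L), A G j (a + b * (ℓ / B)) (ℓ / B)) ^ 2 ≤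
      av (fun x => Ψ x ^ 2) (a + b * (ℓ / B)) (ℓ / B) := by
    intro b _
    have e : ∑ j ∈ Finset.Ico n (n + L), A G j (a + b * (ℓ / B)) (ℓ / B) = av Ψ (a + b * (ℓ / B)) (ℓ / B) := by
      unfold A av
      rw [← Finset.sum_div, hΨ, intervalIntegral.integral_finsetSum (fun j _ => hii j _ _)]
    rw [e]
    exact av_sq_le hΨi hΨ2 _ (div_pos hℓ hB0)
  refine (Finset.sum_le_sum h1).trans ?_
  rw [av_children hΨ2 a hℓ hB]
  refine mul_le_mul_of_nonneg_left ?_ hB0.le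
  unfold av
  rw [div_le_iff₀ hℓ]
  simp only [hsq]
  rw [intervalIntegral.integral_finsetSum (fun j₁ _ => by
    have := IntervalIntegrable.sum (μ := volume) (a := a) (b := a + ℓ) (Finset.Ico n (n + L))
      (f := fun j₂ x => G j₁ x * G j₂ x) (fun j₂ _ => hprod j₁ j₂ _ _)
    simpa [Finset.sum_fn] using this)]
  have h2 : ∀ j₁ ∈ Finset.Ico n (n + L), ∫ x in a..(a + ℓ), ∑ j₂ ∈ Finset.Ico n (n + L), G j₁ x * G j₂ x ≤
      2 * (w * ℓ) := by
    intro j₁ hj₁
    rw [intervalIntegral.integral_finsetSum (fun j₂ _ => hprod j₁ j₂ _ _)]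
    have h3 : ∀ j₂ ∈ Finset.Ico n (n + L), ∫ x in a..(a + ℓ), G j₁ x * G j₂ x ≤
        (if j₂ = j₁ then w * ℓ else 0) + (if j₂ < H then w * η * ℓ else 0) := by
      intro j₂ hj₂
      rw [Finset.mem_Ico] at hj₁ hj₂
      have hwη : 0 ≤ w * η * ℓ := mul_nonneg (mul_nonneg hw.w0 hw.η0) hℓ.le
      by_cases he : j₂ = j₁
      · rw [if_pos he, he]
        have h4 := hw.sq j₁ hj₁.1
        split_ifs <;> linarith
      · rw [if_neg he, zero_add]
        by_cases hH : j₂ < H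
        · rw [if_pos hH]
          refine (le_abs_self _).trans ?_
          rcases Nat.lt_or_gt_of_ne he with hlt | hlt
          · have e : ∫ x in a..(a + ℓ), G j₁ x * G j₂ x = ∫ x in a..(a + ℓ), G j₂ x * G j₁ x := by
              congr 1
              ext x
              ring
            rw [e]
            exact hw.cov j₂ j₁ hj₂.1 hlt
          · exact hw.cov j₁ j₂ hj₁.1 hlt
        · rw [if_neg hH]
          have e : ∫ x in a..(a + ℓ), G j₁ x * G j₂ x = 0 := by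
            rw [intervalIntegral.integral_congr (g := fun _ => (0 : ℝ)) fun x _ => by
              show G j₁ x * G j₂ x = 0
              rw [hw.zero j₂ (not_lt.1 hH) x, mul_zero]]
            simp
          exact e.le
    refine (Finset.sum_le_sum h3).trans ?_
    rw [Finset.sum_add_distrib, Finset.sum_ite_eq', if_pos hj₁, ← Finset.sum_filter, Finset.sum_const, nsmul_eq_mul]
    have h4 : (((Finset.Ico n (n + L)).filter (fun j => j < H)).card : ℝ) ≤ H := by
      have h5 : (Finset.Ico n (n + L)).filter (fun j => j < H) ⊆ Finset.range H := fun j hj =>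
        Finset.mem_range.2 (Finset.mem_filter.1 hj).2
      have h6 := Finset.card_le_card h5
      rw [Finset.card_range] at h6
      exact_mod_cast h6
    have h5 : (((Finset.Ico n (n + L)).filter (fun j => j < H)).card : ℝ) * (w * η * ℓ) ≤ w * ℓ := by
      calc (((Finset.Ico n (n + L)).filter (fun j => j < H)).card : ℝ) * (w * η * ℓ) ≤ H * (w * η * ℓ) :=
            mul_le_mul_of_nonneg_right h4 (mul_nonneg (mul_nonneg hw.w0 hw.η0) hℓ.le)
        _ = (w * ℓ) * (H * η) := by ring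
        _ ≤ (w * ℓ) * 1 := mul_le_mul_of_nonneg_left (Hη68 hw) (mul_nonneg hw.w0 hℓ.le)
        _ = w * ℓ := mul_one _
    linarith
  refine (Finset.sum_le_sum h2).trans (le_of_eq ?_)
  rw [Finset.sum_const, Nat.card_Ico, Nat.add_sub_cancel_left, nsmul_eq_mul]
  ring

/-- second moments of the increments -/
theorem M_var (hw : Wq G w η H n a ℓ) {r L B : ℕ} (h : NB G n r a ℓ) (hB : 1 ≤ B)
    (hw' : ∀ b < B, Wq G w η H (n + L) (a + b * (ℓ / B)) (ℓ / B)) (hL1 : 1 ≤ L) :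
    ∑ b ∈ Finset.range B, (M G (a + b * (ℓ / B)) (ℓ / B) - M G a ℓ) ^ 2 ≤ B * (2 * W G n r a ℓ + 44 * L * w * (1 + w)) := by
  have hℓ := hw.pos
  have hw0 := hw.w0
  have hB0 : (0:ℝ) < B := by exact_mod_cast hB
  have hL0 : (1:ℝ) ≤ L := by exact_mod_cast hL1
  set P : ℕ → ℝ := fun b => ∑ j ∈ Finset.Ico (n - r) n, dA G j a ℓ B b with hP
  set Y : ℕ → ℝ := fun b => ∑ j ∈ Finset.Ico n (n + L), A G j (a + b * (ℓ / B)) (ℓ / B) with hY
  set Z : ℕ → ℝ := fun b => dT G (n + L) a ℓ B b - ∑ j ∈ Finset.Ico n (n + L), A G j a ℓ with hZ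
  have hdec : ∀ b ∈ Finset.range B, (M G (a + b * (ℓ / B)) (ℓ / B) - M G a ℓ) ^ 2 ≤
      2 * P b ^ 2 + (4 * Y b ^ 2 + 4 * Z b ^ 2) := by
    intro b hb
    rw [inc_eq (n := n) (L := L) hℓ h (Finset.mem_range.mp hb)]
    have e : ∑ j ∈ Finset.Ico (n - r) (n + L), dA G j a ℓ B b + dT G (n + L) a ℓ B b = P b + (Y b + Z b) := by
      rw [hP, hY, hZ]
      simp only
      rw [← Finset.sum_Ico_consecutive _ (show n - r ≤ n by omega) (show n ≤ n + L by omega)]
      have : ∑ j ∈ Finset.Ico n (n + L), dA G j a ℓ B b = ∑ j ∈ Finset.Ico n (n + L), A G j (a + b * (ℓ / B)) (ℓ / B) -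
          ∑ j ∈ Finset.Ico n (n + L), A G j a ℓ := by
        unfold dA
        rw [Finset.sum_sub_distrib]
      rw [this]
      ring
    rw [e]
    nlinarith [sq_nonneg (P b - (Y b + Z b)), sq_nonneg (Y b - Z b)]
  -- the pending part
  have hPs : ∑ b ∈ Finset.range B, P b ^ 2 ≤ B * W G n r a ℓ := by
    have h1 : ∀ b ∈ Finset.range B, P b ^ 2 ≤ r * ∑ j ∈ Finset.Ico (n - r) n, dA G j a ℓ B b ^ 2 := by
      intro b _
      have h2 : (∑ j ∈ Finset.Ico (n - r) n, dA G j a ℓ B b) ^ 2 ≤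
          ((Finset.Ico (n - r) n).card : ℝ) * ∑ j ∈ Finset.Ico (n - r) n, dA G j a ℓ B b ^ 2 :=
        sq_sum_le_card_mul_sum_sq
      refine h2.trans ?_
      have h3 : (0:ℝ) ≤ ∑ j ∈ Finset.Ico (n - r) n, dA G j a ℓ B b ^ 2 := Finset.sum_nonneg fun j _ => sq_nonneg _
      refine mul_le_mul_of_nonneg_right ?_ h3
      rw [Nat.card_Ico]
      have : n - (n - r) ≤ r := by omega
      exact_mod_cast this
    refine (Finset.sum_le_sum h1).trans ?_
    rw [← Finset.mul_sum, Finset.sum_comm]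
    unfold W
    rw [← mul_assoc (B:ℝ), mul_comm (B:ℝ), mul_assoc (r:ℝ), Finset.mul_sum (a := (B:ℝ))]
    have hr0 : (0:ℝ) ≤ r := Nat.cast_nonneg r
    refine mul_le_mul_of_nonneg_left ?_ hr0
    refine Finset.sum_le_sum fun j _ => ?_
    exact sum_av_sub_sq_le (hw.meas j) (hw.bdd j) a hℓ hB
  have hYs : ∑ b ∈ Finset.range B, Y b ^ 2 ≤ B * (2 * L * w) := mid_sq68 hw hB
  have hZb : ∀ b ∈ Finset.range B, Z b ^ 2 ≤ 9 * w ^ 2 := by
    intro b hb
    have h1 : |dT G (n + L) a ℓ B b| ≤ 2 * w := by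
      unfold dT
      have h2 := M_tail68 (hw' b (Finset.mem_range.mp hb)) (le_refl (n + L))
      have h3 := M_tail68 hw (Nat.le_add_right n L)
      refine (abs_sub _ _).trans ?_
      linarith
    have h2 : |∑ j ∈ Finset.Ico n (n + L), A G j a ℓ| ≤ w := tail_sum68 hw _ fun j hj => (Finset.mem_Ico.1 hj).1
    have h3 : |Z b| ≤ 3 * w := by
      rw [hZ]
      refine (abs_sub _ _).trans ?_
      linarith
    rw [← sq_abs]
    calc |Z b| ^ 2 ≤ (3 * w) ^ 2 := pow_le_pow_left₀ (abs_nonneg _) h3 2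
      _ = _ := by ring
  refine (Finset.sum_le_sum hdec).trans ?_
  rw [Finset.sum_add_distrib, Finset.sum_add_distrib, ← Finset.mul_sum, ← Finset.mul_sum, ← Finset.mul_sum]
  have hZs : ∑ b ∈ Finset.range B, Z b ^ 2 ≤ B * (9 * w ^ 2) := by
    refine (Finset.sum_le_sum hZb).trans (le_of_eq ?_)
    rw [Finset.sum_const, Finset.card_range, nsmul_eq_mul]
  have hfin : 4 * (B * (2 * L * w)) + 4 * (B * (9 * w ^ 2)) ≤ B * (44 * L * w * (1 + w)) := by
    have h1 : w ^ 2 ≤ L * w ^ 2 := le_mul_of_one_le_left (by positivity) hL0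
    have h2 : 0 ≤ L * w := mul_nonneg (by linarith) hw0
    have h3 : 0 ≤ L * w ^ 2 := mul_nonneg (by linarith) (by positivity)
    calc 4 * (B * (2 * L * w)) + 4 * (B * (9 * w ^ 2)) = B * (8 * (L * w) + 36 * w ^ 2) := by ring
      _ ≤ B * (44 * (L * w) + 44 * (L * w ^ 2)) := mul_le_mul_of_nonneg_left (by linarith) hB0.le
      _ = _ := by ring
  have : (B:ℝ) * (2 * W G n r a ℓ + 44 * L * w * (1 + w)) = 2 * (B * W G n r a ℓ) + B * (44 * L * w * (1 + w)) := by ring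
  rw [this]
  linarith

end Pool.Agent.Helper68.LD6
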